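import Pool.Agent.MWGX.StmtsA

/-! Row NRW of squad MWGX (MP_23468a_al): letters which occurred before, only the residues count. -/

set_option autoImplicit false

namespace Pool.Agent.MWGX.H75

open Pool.Agent.Helper14_MV Pool.Agent.Helper2_MV
open Pool.Agent.MWGQ (Gn pw PwxStmt)

variable {n : ℕ} {β : FIC}

theorem pw_one (k d : ℕ) : pw k [d] = List.replicate k d := by
  unfold pw
  induction k with
  | zero => rfl
  | succ k ih =>
    rw [List.replicate_succ, List.flatten_cons, ih, List.replicate_succ]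
    rfl

/-- the exponent of a letter which occurred before -/
theorem expo (hpwx : PwxStmt) (hG : Gn n β) {U : List ℕ} {d : ℕ} (hd : d ∈ U) {k k' : ℕ} (hk : 1 ≤ k)
    (hk' : 1 ≤ k') (h : k ≡ k' [MOD n]) (R : List ℕ) :
    RR β (U ++ (List.replicate k d ++ R)) (U ++ (List.replicate k' d ++ R)) := by
  obtain ⟨U1, U2, rfl⟩ := List.append_of_mem hd
  have h1 := (hpwx n β hG).2.1 [d] U2 k k' hk hk' h
  rw [pw_one, pw_one] at h1
  have h2 := (RR.refl (β := β) U1).append (h1.append (RR.refl (β := β) R))
  have e : ∀ k, U1 ++ (([d] ++ (U2 ++ List.replicate k d)) ++ R) =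
      (U1 ++ d :: U2) ++ (List.replicate k d ++ R) := by
    intro k
    simp
  rw [e, e] at h2
  exact h2

/-- letters which occurred before commute -/
theorem swp (hpwx : PwxStmt) (hG : Gn n β) {V : List ℕ} {d e : ℕ} (hd : d ∈ V) (he : e ∈ V)
    (R : List ℕ) : RR β (V ++ d :: e :: R) (V ++ e :: d :: R) := by
  have hn := hG.pos
  have hm : 1 ≡ n + 1 [MOD n] := by
    unfold Nat.ModEq
    rw [Nat.add_mod_left]
  have key : ∀ d e : ℕ, d ∈ V → e ∈ V → RR β (V ++ d :: e :: R)
      (V ++ (List.replicate (n + 1) d ++ (List.replicate (n + 1) e ++ R))) := by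
    intro d e hd he
    have h1 := expo hpwx hG hd (le_refl 1) (by omega : 1 ≤ n + 1) hm (e :: R)
    have h2 := expo hpwx hG (U := V ++ List.replicate (n + 1) d) (List.mem_append_left _ he)
      (le_refl 1) (by omega : 1 ≤ n + 1) hm R
    have e1 : V ++ (List.replicate 1 d ++ e :: R) = V ++ d :: e :: R := rfl
    have e2 : (V ++ List.replicate (n + 1) d) ++ (List.replicate 1 e ++ R) =
        V ++ (List.replicate (n + 1) d ++ e :: R) := by
      simp
    rw [e1] at h1
    rw [e2, List.append_assoc] at h2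
    exact β.trans h1 h2
  have h3 := (hpwx n β hG).2.2 [d] [e] (n + 1) (n + 1) (by omega) (by omega)
  rw [pw_one, pw_one] at h3
  have h4 := (RR.refl (β := β) V).append (h3.append (RR.refl (β := β) R))
  rw [List.append_assoc, List.append_assoc] at h4
  exact β.trans (key d e hd he) (β.trans h4 (RR.symm (key e d he hd)))

/-- permutations -/
theorem prm (hpwx : PwxStmt) (hG : Gn n β) (R : List ℕ) {W W1 : List ℕ} (h : W.Perm W1) :
    ∀ U : List ℕ, (∀ d ∈ W, d ∈ U) → RR β (U ++ (W ++ R)) (U ++ (W1 ++ R)) := by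
  induction h with
  | nil =>
    intro U _
    exact RR.refl _
  | cons d _ ih =>
    intro U hU
    have h1 := ih (U ++ [d]) (fun c hc => List.mem_append_left _ (hU c (List.mem_cons_of_mem _ hc)))
    rw [List.append_assoc, List.append_assoc] at h1
    exact h1
  | swap d e V =>
    intro U hU
    exact swp hpwx hG (hU e (by simp)) (hU d (by simp)) (V ++ R)
  | trans h1 _ ih1 ih2 =>
    intro U hU
    exact β.trans (ih1 U hU) (ih2 U (fun d hd => hU d (h1.mem_iff.2 hd)))

/-- product of the powers -/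
def pp (f : ℕ → ℕ) (D : List ℕ) : List ℕ := D.flatMap (fun d => List.replicate (f d) d)

theorem cnt_pp (f : ℕ → ℕ) (c : ℕ) : ∀ D : List ℕ, D.Nodup →
    (pp f D).count c = if c ∈ D then f c else 0
  | [], _ => by simp [pp]
  | d :: D, h => by
    obtain ⟨h1, h2⟩ := List.nodup_cons.1 h
    unfold pp
    rw [List.flatMap_cons, List.count_append]
    have ih := cnt_pp f c D h2
    unfold pp at ih
    rw [ih, List.count_replicate]
    by_cases hc : c = d
    · subst hc
      simp [h1]
    · have hc' : (d == c) = false := by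
        rw [beq_eq_false_iff_ne]
        exact Ne.symm hc
      rw [hc']
      simp [hc]

theorem pp_mod (hpwx : PwxStmt) (hG : Gn n β) (R : List ℕ) (f g : ℕ → ℕ) : ∀ (D U : List ℕ),
    (∀ d ∈ D, d ∈ U ∧ 1 ≤ f d ∧ 1 ≤ g d ∧ f d ≡ g d [MOD n]) →
      RR β (U ++ (pp f D ++ R)) (U ++ (pp g D ++ R))
  | [], _, _ => RR.refl _
  | d :: D, U, h => by
    obtain ⟨h1, h2, h3, h4⟩ := h d (by simp)
    have a1 := expo hpwx hG h1 h2 h3 h4 (pp f D ++ R)
    have a2 := pp_mod hpwx hG R f g D (U ++ List.replicate (g d) d) (fun c hc => by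
      obtain ⟨h1, h2⟩ := h c (List.mem_cons_of_mem _ hc)
      exact ⟨List.mem_append_left _ h1, h2⟩)
    rw [List.append_assoc, List.append_assoc] at a2
    have e : ∀ f : ℕ → ℕ, pp f (d :: D) ++ R = List.replicate (f d) d ++ (pp f D ++ R) := by
      intro f
      unfold pp
      rw [List.flatMap_cons, List.append_assoc]
    rw [e, e]
    exact β.trans a1 a2

/-- ROW NRW -/
theorem nrw (hpwx : PwxStmt) : NrwStmt := by
  intro n β hG U W W' R hU hW
  have hp : W.Perm (pp (fun d => W.count d) W.dedup) := by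
    rw [List.perm_iff_count]
    intro c
    rw [cnt_pp _ _ _ (List.nodup_dedup W)]
    split
    · rfl
    · next h =>
      rw [List.mem_dedup] at h
      exact List.count_eq_zero.2 h
  have hp' : W'.Perm (pp (fun d => W'.count d) W.dedup) := by
    rw [List.perm_iff_count]
    intro c
    rw [cnt_pp _ _ _ (List.nodup_dedup W)]
    split
    · rfl
    · next h =>
      rw [List.mem_dedup] at h
      exact List.count_eq_zero.2 (fun h' => h ((hW c).1.2 h'))
  have h1 := prm hpwx hG R hp U hU
  have h2 := prm hpwx hG R hp' U (fun d hd => hU d ((hW d).1.2 hd))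
  have h3 := pp_mod hpwx hG R (fun d => W.count d) (fun d => W'.count d) W.dedup U (fun d hd => by
    rw [List.mem_dedup] at hd
    exact ⟨hU d hd, List.count_pos_iff.2 hd, List.count_pos_iff.2 ((hW d).1.1 hd), (hW d).2⟩)
  exact β.trans h1 (β.trans h3 (RR.symm h2))

end Pool.Agent.MWGX.H75
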